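import Pool.Agent.W_a4f561_h73.A4Drw

/-!
MP_a4f561_co: from a drawing with parametrized curves to a drawing with functions of the height.
-/

set_option autoImplicit false

namespace Pool.Agent.W_a4f561_h73

open Set

theorem exists_curve {g : ℝ → ℝ × ℝ} (hc : ContinuousOn g (Icc (0 : ℝ) 1))
    (hm : StrictMonoOn (fun t => (g t).2) (Icc (0 : ℝ) 1)) :
    ∃ X : ℝ → ℝ, Continuous X ∧ ∀ h ∈ Icc (g 0).2 (g 1).2, ∃ t ∈ Icc (0 : ℝ) 1, g t = (X h, h) := by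
  have h0 : (0 : ℝ) ∈ Icc (0 : ℝ) 1 := ⟨le_rfl, zero_le_one⟩
  have h1 : (1 : ℝ) ∈ Icc (0 : ℝ) 1 := ⟨zero_le_one, le_rfl⟩
  have hle : (g 0).2 ≤ (g 1).2 := (hm h0 h1 zero_lt_one).le
  let φ : Icc (0 : ℝ) 1 → Icc (g 0).2 (g 1).2 := fun t =>
    ⟨(g t).2, hm.monotoneOn h0 t.2 t.2.1, hm.monotoneOn t.2 h1 t.2.2⟩
  have hφ : StrictMono φ := fun a b hab => hm a.2 b.2 hab
  have hsurj : Function.Surjective φ := by
    rintro ⟨y, hy⟩
    obtain ⟨t, ht, hty⟩ := intermediate_value_Icc zero_le_one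
      (continuous_snd.comp_continuousOn hc) hy
    exact ⟨⟨t, ht⟩, Subtype.ext hty⟩
  let e : Icc (0 : ℝ) 1 ≃o Icc (g 0).2 (g 1).2 := hφ.orderIsoOfSurjective φ hsurj
  have he : Continuous e.symm := e.symm.continuous
  refine ⟨fun h => (g (e.symm (projIcc (g 0).2 (g 1).2 hle h))).1, ?_, ?_⟩
  · have h2 : Continuous ((Icc (0 : ℝ) 1).restrict g) := continuousOn_iff_continuous_restrict.1 hc
    exact continuous_fst.comp (h2.comp (he.comp continuous_projIcc))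
  · intro h hh
    refine ⟨e.symm (projIcc (g 0).2 (g 1).2 hle h), (e.symm _).2, Prod.ext rfl ?_⟩
    have h3 : e (e.symm (projIcc (g 0).2 (g 1).2 hle h)) = ⟨h, hh⟩ := by
      rw [OrderIso.apply_symm_apply, projIcc_of_mem hle hh]
    exact congrArg Subtype.val h3

theorem exists_drw_y {V : Type} {A : V → V → Prop} (f : V → ℝ × ℝ) (hf : Function.Injective f)
    (γ : V → V → ℝ → ℝ × ℝ)
    (h1 : ∀ u v, A u v → ContinuousOn (γ u v) (Icc (0:ℝ) 1) ∧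
      γ u v 0 = f u ∧ γ u v 1 = f v ∧
      StrictMonoOn (fun t => (γ u v t).2) (Icc (0:ℝ) 1) ∧
      (∀ w, ∀ s ∈ Ioo (0:ℝ) 1, γ u v s ≠ f w))
    (h2 : ∀ u v u' v', A u v → A u' v' → (u, v) ≠ (u', v') →
      ∀ s ∈ Ioo (0:ℝ) 1, ∀ t ∈ Icc (0:ℝ) 1, γ u v s ≠ γ u' v' t) : ∃ D : Drw V A, ∀ v, D.y v = (f v).2 := by
  have hX : ∀ u v, ∃ X : ℝ → ℝ, A u v → Continuous X ∧
      ∀ h ∈ Icc (f u).2 (f v).2, ∃ t ∈ Icc (0 : ℝ) 1, γ u v t = (X h, h) := by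
    intro u v
    by_cases huv : A u v
    · obtain ⟨k1, k2, k3, k4, _⟩ := h1 u v huv
      obtain ⟨X, l1, l2⟩ := exists_curve k1 k4
      rw [k2, k3] at l2
      exact ⟨X, fun _ => ⟨l1, l2⟩⟩
    · exact ⟨fun _ => 0, fun h => absurd h huv⟩
  choose X hX using hX
  have e0 : (0 : ℝ) ∈ Icc (0 : ℝ) 1 := ⟨le_rfl, zero_le_one⟩
  have e1 : (1 : ℝ) ∈ Icc (0 : ℝ) 1 := ⟨zero_le_one, le_rfl⟩
  have hup : ∀ u v, A u v → (f u).2 < (f v).2 := by
    intro u v huv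
    obtain ⟨k1, k2, k3, k4, _⟩ := h1 u v huv
    have h3 := k4 e0 e1 zero_lt_one
    simp only [k2, k3] at h3
    exact h3
  have hin : ∀ u v h, A u v → (f u).2 < h → h < (f v).2 →
      ∃ t ∈ Ioo (0 : ℝ) 1, γ u v t = (X u v h, h) := by
    intro u v h huv hu hv
    obtain ⟨k1, k2, k3, k4, _⟩ := h1 u v huv
    obtain ⟨t, ht, hth⟩ := (hX u v huv).2 h ⟨hu.le, hv.le⟩
    refine ⟨t, ⟨lt_of_le_of_ne ht.1 ?_, lt_of_le_of_ne ht.2 ?_⟩, hth⟩
    · rintro rfl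
      rw [k2] at hth
      rw [hth] at hu
      exact lt_irrefl _ hu
    · rintro rfl
      rw [k3] at hth
      rw [hth] at hv
      exact lt_irrefl _ hv
  refine ⟨⟨fun v => (f v).1, fun v => (f v).2, X, ?_, hup, ?_, ?_, ?_, ?_, ?_⟩, fun _ => rfl⟩
  · intro u v hx hy
    exact hf (Prod.ext hx hy)
  · intro u v huv
    exact (hX u v huv).1.continuousOn
  · intro u v huv
    obtain ⟨k1, k2, k3, k4, _⟩ := h1 u v huv
    obtain ⟨t, ht, hth⟩ := (hX u v huv).2 (f u).2 ⟨le_rfl, (hup u v huv).le⟩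
    have h3 : t = 0 := k4.injOn ht e0 (by
      change (γ u v t).2 = (γ u v 0).2
      rw [hth, k2])
    rw [h3, k2] at hth
    exact (congrArg Prod.fst hth).symm
  · intro u v huv
    obtain ⟨k1, k2, k3, k4, _⟩ := h1 u v huv
    obtain ⟨t, ht, hth⟩ := (hX u v huv).2 (f v).2 ⟨(hup u v huv).le, le_rfl⟩
    have h3 : t = 1 := k4.injOn ht e1 (by
      change (γ u v t).2 = (γ u v 1).2
      rw [hth, k3])
    rw [h3, k3] at hth
    exact (congrArg Prod.fst hth).symm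
  · intro u v w huv hu hv heq
    obtain ⟨t, ht, hth⟩ := hin u v _ huv hu hv
    refine (h1 u v huv).2.2.2.2 w t ht ?_
    rw [hth]
    exact Prod.ext heq rfl
  · intro u v u' v' h huv huv' hne k1 k2 k3 k4 heq
    obtain ⟨t, ht, hth⟩ := hin u v _ huv k1 k2
    obtain ⟨t', ht', hth'⟩ := (hX u' v' huv').2 h ⟨k3, k4⟩
    refine h2 u v u' v' huv huv' hne t ht t' ht' ?_
    rw [hth, hth', heq]

end Pool.Agent.W_a4f561_h73
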