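import Mathlib

/-!
MP_a4f561_co: the order by strips and the pages, from two orders `R`, `R'` of the vertices.
-/

set_option autoImplicit false

namespace Pool.Agent.W_a4f561_h73

/-- A strict total order on `Fin n` is induced by a permutation. -/
theorem exists_perm {n : ℕ} (r : Fin n → Fin n → Prop) (hirr : ∀ a, ¬ r a a)
    (htr : ∀ a b c, r a b → r b c → r a c) (htot : ∀ a b, a ≠ b → r a b ∨ r b a) :
    ∃ σ : Fin n ≃ Fin n, ∀ a b, σ a < σ b ↔ r a b := by
  classical
  let c : Fin n → ℕ := fun a => (Finset.univ.filter fun x => r x a).card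
  have hc : ∀ a b, r a b → c a < c b := by
    intro a b hab
    refine Finset.card_lt_card (Finset.ssubset_iff_of_subset ?_ |>.2 ⟨a, ?_, ?_⟩)
    · intro x hx
      rw [Finset.mem_filter] at hx ⊢
      exact ⟨hx.1, htr _ _ _ hx.2 hab⟩
    · rw [Finset.mem_filter]
      exact ⟨Finset.mem_univ _, hab⟩
    · rw [Finset.mem_filter]
      exact fun h => hirr a h.2
  have hn : ∀ a, c a < n := by
    intro a
    have h1 : c a < (Finset.univ : Finset (Fin n)).card := by
      refine Finset.card_lt_card (Finset.ssubset_iff_of_subset (Finset.subset_univ _) |>.2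
        ⟨a, Finset.mem_univ _, ?_⟩)
      rw [Finset.mem_filter]
      exact fun h => hirr a h.2
    rwa [Finset.card_univ, Fintype.card_fin] at h1
  let f : Fin n → Fin n := fun a => ⟨c a, hn a⟩
  have hf : ∀ a b, f a < f b ↔ r a b := by
    intro a b
    refine ⟨fun h => ?_, fun h => hc a b h⟩
    have h' : c a < c b := h
    rcases eq_or_ne a b with h1 | h1
    · rw [h1] at h'
      exact absurd h' (lt_irrefl _)
    · rcases htot a b h1 with h2 | h2
      · exact h2
      · exact absurd (hc b a h2) (lt_asymm h')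
  have hinj : Function.Injective f := by
    intro a b hab
    by_contra hne
    rcases htot a b hne with h | h
    · exact absurd ((hf a b).2 h) (by rw [hab]; exact lt_irrefl _)
    · exact absurd ((hf b a).2 h) (by rw [hab]; exact lt_irrefl _)
  exact ⟨Equiv.ofBijective f (Finite.injective_iff_bijective.1 hinj), hf⟩

section arith

variable {a b d : ℤ}

theorem same_lvl (h1 : a / d = b / d) (h2 : a % d = b % d) : a = b := by
  have e1 := Int.mul_ediv_add_emod a d
  have e2 := Int.mul_ediv_add_emod b d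
  rw [← e1, ← e2, h1, h2]

theorem inner_lt (h1 : a / d = b / d) (h2 : a < b) : a % d < b % d := by
  have e1 := Int.mul_ediv_add_emod a d
  have e2 := Int.mul_ediv_add_emod b d
  rw [h1] at e1
  linarith

theorem iface_le (h1 : b / d = a / d + 1) (h2 : b ≤ a + d) : b % d ≤ a % d := by
  have e1 := Int.mul_ediv_add_emod a d
  have e2 := Int.mul_ediv_add_emod b d
  rw [h1, mul_add, mul_one] at e2
  linarith

theorem div_le_succ (hd : 0 < d) (h : b ≤ a + d) : b / d ≤ a / d + 1 := by
  have h1 := Int.ediv_le_ediv hd h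
  have h2 : (a + d) / d = a / d + 1 := by
    have h3 := Int.add_mul_ediv_right a 1 hd.ne'
    rwa [one_mul] at h3
  rwa [h2] at h1

end arith

variable {V : Type}

/-- `g` separates the tails of crossing edges of equal levels. -/
def Sep (A : V → V → Prop) (ρ : V → ℤ) (R : V → V → Prop) (g : ℤ → V → Bool) : Prop :=
  ∀ a b c e, A a b → A c e → ρ a = ρ c → ρ b = ρ e → R a c → R c b → R b e → g (ρ b) a ≠ g (ρ e) c

/-- A strict total order compatible with the edges, with a separating colouring. -/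
structure Ord (A : V → V → Prop) (ρ : V → ℤ) (R : V → V → Prop) : Prop where
  irr : ∀ a, ¬ R a a
  tr : ∀ a b c, R a b → R b c → R a c
  tot : ∀ a b, a ≠ b → R a b ∨ R b a
  edge : ∀ a b, A a b → R a b
  col : ∃ g : ℤ → V → Bool, Sep A ρ R g

/-- Two orders, left first and right first. -/
structure Two (A : V → V → Prop) (ρ : V → ℤ) (R R' : V → V → Prop) : Prop where
  o : Ord A ρ R
  o' : Ord A ρ R'
  ifc : ∀ a b c e, A a b → A c e → ρ a = ρ c → ρ b = ρ e → R a c → R' b e → False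
  ifc' : ∀ a b c e, A a b → A c e → ρ a = ρ c → ρ b = ρ e → R' a c → R b e → False

variable {A : V → V → Prop} {R R' : V → V → Prop} {ρ : V → ℤ} {d : ℤ} {a b c e : V}

/-- The order by strips of `d` levels: `R` in even strips, `R'` in odd strips. -/
def Ls (R R' : V → V → Prop) (ρ : V → ℤ) (d : ℤ) (a b : V) : Prop :=
  ρ a / d < ρ b / d ∨ (ρ a / d = ρ b / d ∧
    ((Even (ρ a / d) ∧ R a b) ∨ (¬ Even (ρ a / d) ∧ R' a b)))

theorem Ls.le (h : Ls R R' ρ d a b) : ρ a / d ≤ ρ b / d := by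
  rcases h with h | h
  · exact h.le
  · exact h.1.le

theorem Ls.even (h : Ls R R' ρ d a b) (h1 : ρ a / d = ρ b / d) (h2 : Even (ρ a / d)) :
    R a b := by
  rcases h with h | ⟨_, h | h⟩
  · exact absurd h1 h.ne
  · exact h.2
  · exact absurd h2 h.1

theorem Ls.odd (h : Ls R R' ρ d a b) (h1 : ρ a / d = ρ b / d) (h2 : ¬ Even (ρ a / d)) :
    R' a b := by
  rcases h with h | ⟨_, h | h⟩
  · exact absurd h1 h.ne
  · exact absurd h.1 h2
  · exact h.2

theorem ls_irrefl (H : Two A ρ R R') (a : V) : ¬ Ls R R' ρ d a a := by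
  rintro (h | ⟨_, h | h⟩)
  · exact lt_irrefl _ h
  · exact H.o.irr a h.2
  · exact H.o'.irr a h.2

theorem ls_trans (H : Two A ρ R R') (h1 : Ls R R' ρ d a b) (h2 : Ls R R' ρ d b c) :
    Ls R R' ρ d a c := by
  rcases h1.le.eq_or_lt with e1 | e1
  · rcases h2.le.eq_or_lt with e2 | e2
    · by_cases hev : Even (ρ a / d)
      · have hev' : Even (ρ b / d) := e1 ▸ hev
        exact Or.inr ⟨e1.trans e2, Or.inl ⟨hev, H.o.tr _ _ _ (h1.even e1 hev) (h2.even e2 hev')⟩⟩
      · have hev' : ¬ Even (ρ b / d) := e1 ▸ hev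
        exact Or.inr ⟨e1.trans e2, Or.inr ⟨hev, H.o'.tr _ _ _ (h1.odd e1 hev) (h2.odd e2 hev')⟩⟩
    · exact Or.inl (e1.trans_lt e2)
  · exact Or.inl (e1.trans_le h2.le)

theorem ls_total (H : Two A ρ R R') (hab : a ≠ b) : Ls R R' ρ d a b ∨ Ls R R' ρ d b a := by
  rcases lt_trichotomy (ρ a / d) (ρ b / d) with h | h | h
  · exact Or.inl (Or.inl h)
  · by_cases hev : Even (ρ a / d)
    · have hev' : Even (ρ b / d) := h ▸ hev
      rcases H.o.tot _ _ hab with h1 | h1
      · exact Or.inl (Or.inr ⟨h, Or.inl ⟨hev, h1⟩⟩)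
      · exact Or.inr (Or.inr ⟨h.symm, Or.inl ⟨hev', h1⟩⟩)
    · have hev' : ¬ Even (ρ b / d) := h ▸ hev
      rcases H.o'.tot _ _ hab with h1 | h1
      · exact Or.inl (Or.inr ⟨h, Or.inr ⟨hev, h1⟩⟩)
      · exact Or.inr (Or.inr ⟨h.symm, Or.inr ⟨hev', h1⟩⟩)
  · exact Or.inr (Or.inl h)

theorem ls_edge (H : Two A ρ R R') (hρ : ∀ u v, A u v → ρ u < ρ v) (hd : 0 < d) (h : A a b) :
    Ls R R' ρ d a b := by
  rcases (Int.ediv_le_ediv hd (hρ a b h).le).eq_or_lt with h1 | h1
  · by_cases hev : Even (ρ a / d)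
    · exact Or.inr ⟨h1, Or.inl ⟨hev, H.o.edge _ _ h⟩⟩
    · exact Or.inr ⟨h1, Or.inr ⟨hev, H.o'.edge _ _ h⟩⟩
  · exact Or.inl h1

open Classical in
/-- The bit of an edge. -/
noncomputable def bit (ρ : V → ℤ) (d : ℤ) (g g' : ℤ → V → Bool) (a b : V) : Bool :=
  if ρ a / d = ρ b / d then (if Even (ρ a / d) then g (ρ b) a else g' (ρ b) a)
  else decide (Even (ρ a / d))

theorem nocross (H : Two A ρ R R') (hρ : ∀ u v, A u v → ρ u < ρ v) (hd : 0 < d)
    {g g' : ℤ → V → Bool} (hg : Sep A ρ R g) (hg' : Sep A ρ R' g') (hab : A a b) (hce : A c e)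
    (s1 : ρ b ≤ ρ a + d) (s2 : ρ e ≤ ρ c + d) (hbit : bit ρ d g g' a b = bit ρ d g g' c e)
    (hr1 : ρ a % d = ρ c % d) (hr2 : ρ b % d = ρ e % d) (l1 : Ls R R' ρ d a c)
    (l2 : Ls R R' ρ d c b) (l3 : Ls R R' ρ d b e) : False := by
  have m1 := l1.le
  have m2 := l2.le
  have m3 := l3.le
  have n1 := div_le_succ hd s1
  have n2 := div_le_succ hd s2
  by_cases hin : ρ a / d = ρ b / d
  · have hac : ρ a / d = ρ c / d := by omega
    have hce' : ρ c / d = ρ e / d := by
      by_contra hne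
      have h1 : ρ e / d = ρ c / d + 1 := by omega
      have h2 := iface_le h1 s2
      have h3 := inner_lt hin (hρ a b hab)
      omega
    have e1 : ρ a = ρ c := same_lvl hac hr1
    have e2 : ρ b = ρ e := same_lvl (by omega) hr2
    have hcb : ρ c / d = ρ b / d := by omega
    have hbe : ρ b / d = ρ e / d := by omega
    unfold bit at hbit
    rw [if_pos hin, if_pos hce'] at hbit
    by_cases hev : Even (ρ a / d)
    · have hevc : Even (ρ c / d) := hac ▸ hev
      have hevb : Even (ρ b / d) := hin ▸ hev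
      rw [if_pos hev, if_pos hevc] at hbit
      exact hg a b c e hab hce e1 e2 (l1.even hac hev) (l2.even hcb hevc) (l3.even hbe hevb) hbit
    · have hevc : ¬ Even (ρ c / d) := hac ▸ hev
      have hevb : ¬ Even (ρ b / d) := hin ▸ hev
      rw [if_neg hev, if_neg hevc] at hbit
      exact hg' a b c e hab hce e1 e2 (l1.odd hac hev) (l2.odd hcb hevc) (l3.odd hbe hevb) hbit
  · have hab1 : ρ b / d = ρ a / d + 1 := by omega
    have hce1 : ρ c / d ≠ ρ e / d := by
      intro h1
      have h2 := iface_le hab1 s1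
      have h3 := inner_lt h1 (hρ c e hce)
      omega
    have hce2 : ρ e / d = ρ c / d + 1 := by omega
    unfold bit at hbit
    rw [if_neg hin, if_neg hce1, decide_eq_decide] at hbit
    have hac : ρ a / d = ρ c / d := by
      by_contra hne
      have h1 : ρ c / d = ρ a / d + 1 := by omega
      rw [h1, Int.even_add_one] at hbit
      by_cases h2 : Even (ρ a / d)
      · exact hbit.1 h2 h2
      · exact h2 (hbit.2 h2)
    have e1 : ρ a = ρ c := same_lvl hac hr1
    have hbe : ρ b / d = ρ e / d := by omega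
    have e2 : ρ b = ρ e := same_lvl hbe hr2
    by_cases hev : Even (ρ a / d)
    · have hevb : ¬ Even (ρ b / d) := by
        rw [hab1, Int.even_add_one]
        exact not_not.2 hev
      exact H.ifc a b c e hab hce e1 e2 (l1.even hac hev) (l3.odd hbe hevb)
    · have hevb : Even (ρ b / d) := by
        rw [hab1, Int.even_add_one]
        exact hev
      exact H.ifc' a b c e hab hce e1 e2 (l1.odd hac hev) (l3.even hbe hevb)

theorem assembly {n : ℕ} {A : Fin n → Fin n → Prop} {R R' : Fin n → Fin n → Prop}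
    {ρ : Fin n → ℤ} (H : Two A ρ R R') (hρ : ∀ u v, A u v → ρ u < ρ v) {d : ℕ} (hd : 0 < d) :
    ∃ σ : Fin n ≃ Fin n, ∃ p : Fin n → Fin n → Fin (2 * d ^ 2),
      (∀ u v, A u v → σ u < σ v) ∧
      (∀ a b c e, A a b → A c e → ρ b ≤ ρ a + d → ρ e ≤ ρ c + d → p a b = p c e →
        ¬ (σ a < σ c ∧ σ c < σ b ∧ σ b < σ e)) := by
  have hd' : (0 : ℤ) < d := by exact_mod_cast hd
  obtain ⟨g, hg⟩ := H.o.col
  obtain ⟨g', hg'⟩ := H.o'.col
  obtain ⟨σ, hσ⟩ := exists_perm (Ls R R' ρ d) (ls_irrefl H) (fun _ _ _ => ls_trans H)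
    (fun _ _ => ls_total H)
  have hres : ∀ v, (ρ v % (d : ℤ)).toNat < d := by
    intro v
    have h1 := Int.emod_nonneg (ρ v) hd'.ne'
    have h2 := Int.emod_lt_of_pos (ρ v) hd'
    omega
  have hcard : Fintype.card (Bool × Fin d × Fin d) = 2 * d ^ 2 := by
    rw [Fintype.card_prod, Fintype.card_prod, Fintype.card_fin, Fintype.card_bool, sq]
  refine ⟨σ, fun a b => Fintype.equivFinOfCardEq hcard
    (bit ρ d g g' a b, ⟨_, hres a⟩, ⟨_, hres b⟩), ?_, ?_⟩
  · intro u v huv
    exact (hσ u v).2 (ls_edge H hρ hd' huv)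
  · rintro a b c e hab hce s1 s2 hp ⟨l1, l2, l3⟩
    have h1 := (Fintype.equivFinOfCardEq hcard).injective hp
    have h2 := congrArg Prod.fst h1
    have h3 := congrArg (fun z => (z.2.1 : Fin d).val) h1
    have h4 := congrArg (fun z => (z.2.2 : Fin d).val) h1
    simp only at h2 h3 h4
    have k1 := Int.emod_nonneg (ρ a) hd'.ne'
    have k2 := Int.emod_nonneg (ρ b) hd'.ne'
    have k3 := Int.emod_nonneg (ρ c) hd'.ne'
    have k4 := Int.emod_nonneg (ρ e) hd'.ne'
    exact nocross H hρ hd' hg hg' hab hce s1 s2 h2 (by omega) (by omega) ((hσ a c).1 l1)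
      ((hσ c b).1 l2) ((hσ b e).1 l3)

/-- Two colouring of a functional relation which increases a strict order on a finite type. -/
theorem two_col {V : Type} [Finite V] (r N : V → V → Prop) (hirr : ∀ a, ¬ r a a)
    (htr : ∀ a b c, r a b → r b c → r a c) (hN : ∀ a c, N a c → r a c)
    (hf : ∀ a c c', N a c → N a c' → c = c') : ∃ g : V → Bool, ∀ a c, N a c → g a ≠ g c := by
  classical
  haveI : Std.Irrefl (fun a b => r b a) := ⟨fun a => hirr a⟩
  haveI : IsTrans V (fun a b => r b a) := ⟨fun a b c h1 h2 => htr c b a h2 h1⟩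
  have hwf : WellFounded (fun a b => r b a) := Finite.wellFounded_of_trans_of_irrefl _
  let g : V → Bool := hwf.fix fun a ih =>
    if h : ∃ c, N a c then !(ih h.choose (hN a _ h.choose_spec)) else false
  refine ⟨g, fun a c hac => ?_⟩
  have hex : ∃ c, N a c := ⟨c, hac⟩
  have h1 : g a = !(g hex.choose) := by
    have h2 : g a = if h : ∃ c, N a c then !(g h.choose) else false := hwf.fix_eq _ a
    rw [h2, dif_pos hex]
  have h3 : hex.choose = c := hf a _ _ hex.choose_spec hac
  rw [h1, h3]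
  cases g c <;> simp

/-- The conflict relation between tails. -/
def Nb (A : V → V → Prop) (ρ : V → ℤ) (R : V → V → Prop) (l : ℤ) (a c : V) : Prop :=
  ρ a = ρ c ∧ R a c ∧ ∃ b e, A a b ∧ A c e ∧ ρ b = l ∧ ρ e = l ∧ R c b ∧ R b e

theorem exists_sep [Finite V] (irr : ∀ a, ¬ R a a) (tr : ∀ a b c, R a b → R b c → R a c)
    (hu : ∀ l a c c', Nb A ρ R l a c → Nb A ρ R l a c' → c = c') :
    ∃ g : ℤ → V → Bool, Sep A ρ R g := by
  have h : ∀ l : ℤ, ∃ g : V → Bool, ∀ a c, Nb A ρ R l a c → g a ≠ g c := fun l =>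
    two_col R (Nb A ρ R l) irr tr (fun a c h => h.2.1) (hu l)
  choose g hg using h
  refine ⟨g, fun a b c e h1 h2 h3 h4 h5 h6 h7 => ?_⟩
  rw [h4]
  exact hg (ρ e) a c ⟨h3, h5, b, e, h1, h2, h4, rfl, h6, h7⟩

end Pool.Agent.W_a4f561_h73
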