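import Mathlib

/-!
MP_a4f561_co: upward planar drawings as families of functions `x = X u v (y)`, directed paths as
functions, and the crossing lemma.
-/

set_option autoImplicit false

namespace Pool.Agent.W_a4f561_h73

open Set Relation

/-- An upward planar drawing of the relation `A`: vertex `v` at `(x v, y v)`, edge `u v` the graph of
`X u v` over `[y u, y v]`. -/
structure Drw (V : Type) (A : V → V → Prop) where
  x : V → ℝ
  y : V → ℝ
  X : V → V → ℝ → ℝ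
  inj : ∀ u v, x u = x v → y u = y v → u = v
  up : ∀ u v, A u v → y u < y v
  cont : ∀ u v, A u v → ContinuousOn (X u v) (Icc (y u) (y v))
  X0 : ∀ u v, A u v → X u v (y u) = x u
  X1 : ∀ u v, A u v → X u v (y v) = x v
  vert : ∀ u v w, A u v → y u < y w → y w < y v → X u v (y w) ≠ x w
  edge : ∀ u v u' v' h, A u v → A u' v' → (u, v) ≠ (u', v') → y u < h → h < y v → y u' ≤ h →
    h ≤ y v' → X u v h ≠ X u' v' h

variable {V : Type} {A : V → V → Prop}

/-- The mirror image of a drawing. -/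
def Drw.mir (D : Drw V A) : Drw V A where
  x := fun v => - D.x v
  y := D.y
  X := fun u v h => - D.X u v h
  inj := fun u v h1 h2 => D.inj u v (neg_injective h1) h2
  up := D.up
  cont := fun u v h => (D.cont u v h).neg
  X0 := fun u v h => by rw [D.X0 u v h]
  X1 := fun u v h => by rw [D.X1 u v h]
  vert := fun u v w h h1 h2 h3 => D.vert u v w h h1 h2 (neg_injective h3)
  edge := fun u v u' v' h a b c d e f g k => D.edge u v u' v' h a b c d e f g (neg_injective k)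

theorem Drw.y_le (D : Drw V A) {a b : V} (h : ReflTransGen A a b) : D.y a ≤ D.y b := by
  induction h with
  | refl => exact le_rfl
  | tail _ h2 ih => exact ih.trans (D.up _ _ h2).le

theorem Drw.y_lt (D : Drw V A) {a b : V} (h : ReflTransGen A a b) (hab : a ≠ b) : D.y a < D.y b := by
  rcases ReflTransGen.cases_head h with h1 | ⟨c, h1, h2⟩
  · exact absurd h1 hab
  · exact (D.up _ _ h1).trans_le (D.y_le h2)

/-- `F` describes a directed path from `a` to `b`. -/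
structure Pth (D : Drw V A) (a b : V) (F : ℝ → ℝ) : Prop where
  re : ReflTransGen A a b
  cont : ContinuousOn F (Icc (D.y a) (D.y b))
  h0 : F (D.y a) = D.x a
  h1 : F (D.y b) = D.x b
  loc : ∀ h ∈ Icc (D.y a) (D.y b),
    (∃ w, ReflTransGen A a w ∧ ReflTransGen A w b ∧ D.y w = h ∧ F h = D.x w) ∨
    (∃ c e, A c e ∧ ReflTransGen A a c ∧ ReflTransGen A e b ∧ D.y c < h ∧ h < D.y e ∧
      ∀ k ∈ Icc (D.y c) (D.y e), F k = D.X c e k)

theorem Pth.congr {D : Drw V A} {a b : V} {F G : ℝ → ℝ} (hF : Pth D a b F)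
    (h : ∀ k ∈ Icc (D.y a) (D.y b), G k = F k) : Pth D a b G := by
  have hab := D.y_le hF.re
  refine ⟨hF.re, hF.cont.congr h, ?_, ?_, ?_⟩
  · rw [h _ (left_mem_Icc.2 hab), hF.h0]
  · rw [h _ (right_mem_Icc.2 hab), hF.h1]
  · intro k hk
    rcases hF.loc k hk with ⟨w, h1, h2, h3, h4⟩ | ⟨c, e, h1, h2, h3, h4, h5, h6⟩
    · exact Or.inl ⟨w, h1, h2, h3, by rw [h k hk, h4]⟩
    · refine Or.inr ⟨c, e, h1, h2, h3, h4, h5, fun l hl => ?_⟩
      rw [h l ⟨(D.y_le h2).trans hl.1, hl.2.trans (D.y_le h3)⟩, h6 l hl]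

theorem Pth.refl (D : Drw V A) (a : V) {F : ℝ → ℝ} (hF : F (D.y a) = D.x a) : Pth D a a F := by
  refine ⟨ReflTransGen.refl, ?_, hF, hF, ?_⟩
  · rw [Icc_self]
    exact continuousOn_singleton F _
  · intro h hh
    rw [Icc_self, mem_singleton_iff] at hh
    exact Or.inl ⟨a, ReflTransGen.refl, ReflTransGen.refl, hh.symm, by rw [hh, hF]⟩

theorem Pth.edge (D : Drw V A) {a b : V} (h : A a b) : Pth D a b (D.X a b) := by
  refine ⟨ReflTransGen.single h, D.cont a b h, D.X0 a b h, D.X1 a b h, ?_⟩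
  intro k hk
  rcases hk.1.eq_or_lt with h1 | h1
  · exact Or.inl ⟨a, ReflTransGen.refl, ReflTransGen.single h, h1, by rw [← h1, D.X0 a b h]⟩
  rcases hk.2.eq_or_lt with h2 | h2
  · exact Or.inl ⟨b, ReflTransGen.single h, ReflTransGen.refl, h2.symm, by rw [h2, D.X1 a b h]⟩
  exact Or.inr ⟨a, b, h, ReflTransGen.refl, ReflTransGen.refl, h1, h2, fun _ _ => rfl⟩

theorem Pth.glue {D : Drw V A} {a b c : V} {F : ℝ → ℝ} (h1 : Pth D a b F) (h2 : Pth D b c F) :
    Pth D a c F := by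
  have hab := D.y_le h1.re
  have hbc := D.y_le h2.re
  refine ⟨h1.re.trans h2.re, ?_, h1.h0, h2.h1, ?_⟩
  · rw [← Icc_union_Icc_eq_Icc hab hbc]
    exact h1.cont.union_of_isClosed h2.cont isClosed_Icc isClosed_Icc
  · intro h hh
    rcases le_total h (D.y b) with hb | hb
    · rcases h1.loc h ⟨hh.1, hb⟩ with ⟨w, k1, k2, k3, k4⟩ | ⟨p, q, k1, k2, k3, k4, k5, k6⟩
      · exact Or.inl ⟨w, k1, k2.trans h2.re, k3, k4⟩
      · exact Or.inr ⟨p, q, k1, k2, k3.trans h2.re, k4, k5, k6⟩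
    · rcases h2.loc h ⟨hb, hh.2⟩ with ⟨w, k1, k2, k3, k4⟩ | ⟨p, q, k1, k2, k3, k4, k5, k6⟩
      · exact Or.inl ⟨w, h1.re.trans k1, k2, k3, k4⟩
      · exact Or.inr ⟨p, q, k1, h1.re.trans k2, k3, k4, k5, k6⟩

/-- Two consecutive paths as one function. -/
theorem Pth.join {D : Drw V A} {a b c : V} {F G : ℝ → ℝ} (hF : Pth D a b F) (hG : Pth D b c G) :
    ∃ H : ℝ → ℝ, (∀ k, k ≤ D.y b → H k = F k) ∧ (∀ k, D.y b ≤ k → H k = G k) ∧
      Pth D a b H ∧ Pth D b c H := by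
  classical
  refine ⟨fun k => if k ≤ D.y b then F k else G k, ?_, ?_, ?_, ?_⟩
  · intro k hk
    exact if_pos hk
  · intro k hk
    rcases hk.eq_or_lt with h | h
    · rw [← h]
      exact (if_pos le_rfl).trans (hF.h1.trans hG.h0.symm)
    · exact if_neg (not_le.2 h)
  · exact hF.congr fun k hk => if_pos hk.2
  · refine hG.congr fun k hk => ?_
    rcases hk.1.eq_or_lt with h | h
    · rw [← h]
      exact (if_pos le_rfl).trans (hF.h1.trans hG.h0.symm)
    · exact if_neg (not_le.2 h)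

theorem Pth.exists (D : Drw V A) {a b : V} (h : ReflTransGen A a b) : ∃ F, Pth D a b F := by
  induction h with
  | refl => exact ⟨fun _ => D.x a, Pth.refl D a rfl⟩
  | tail _ h2 ih =>
    obtain ⟨F, hF⟩ := ih
    obtain ⟨H, _, _, h3, h4⟩ := hF.join (Pth.edge D h2)
    exact ⟨H, h3.glue h4⟩

/-- A vertex on a path is between its ends. -/
theorem Pth.on {D : Drw V A} {a b : V} {F : ℝ → ℝ} (hF : Pth D a b F) {w : V}
    (h1 : D.y a ≤ D.y w) (h2 : D.y w ≤ D.y b) (h : F (D.y w) = D.x w) :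
    ReflTransGen A a w ∧ ReflTransGen A w b := by
  rcases hF.loc (D.y w) ⟨h1, h2⟩ with ⟨v, k1, k2, k3, k4⟩ | ⟨p, q, k1, k2, k3, k4, k5, k6⟩
  · obtain rfl : v = w := D.inj v w (by rw [← k4, h]) k3
    exact ⟨k1, k2⟩
  · exact absurd ((k6 _ ⟨k4.le, k5.le⟩).symm.trans h) (D.vert p q w k1 k4 k5)

theorem Pth.mir {D : Drw V A} {a b : V} {F : ℝ → ℝ} (hF : Pth D a b F) :
    Pth D.mir a b (fun k => - F k) := by
  refine ⟨hF.re, hF.cont.neg, ?_, ?_, ?_⟩
  · change - F (D.y a) = - D.x a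
    rw [hF.h0]
  · change - F (D.y b) = - D.x b
    rw [hF.h1]
  · intro h hh
    rcases hF.loc h hh with ⟨v, k1, k2, k3, k4⟩ | ⟨p, q, k1, k2, k3, k4, k5, k6⟩
    · refine Or.inl ⟨v, k1, k2, k3, ?_⟩
      change - F h = - D.x v
      rw [k4]
    · refine Or.inr ⟨p, q, k1, k2, k3, k4, k5, fun k hk => ?_⟩
      change - F k = - D.X p q k
      rw [k6 k hk]

/-- Crossing lemma: two paths which exchange sides have a common vertex in between. -/
theorem cross {D : Drw V A} {a b a' b' : V} {F G : ℝ → ℝ} (hF : Pth D a b F)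
    (hG : Pth D a' b' G) {h1 h2 : ℝ} (h12 : h1 < h2) (ha : D.y a ≤ h1) (hb : h2 ≤ D.y b)
    (ha' : D.y a' ≤ h1) (hb' : h2 ≤ D.y b') (hl : F h1 < G h1) (hr : G h2 < F h2) :
    ∃ w, h1 < D.y w ∧ D.y w < h2 ∧ F (D.y w) = D.x w ∧ G (D.y w) = D.x w := by
  have hc : ContinuousOn (fun k => F k - G k) (Icc h1 h2) :=
    (hF.cont.mono (Icc_subset_Icc ha hb)).sub (hG.cont.mono (Icc_subset_Icc ha' hb'))
  obtain ⟨h, hh, h0⟩ := intermediate_value_Ioo h12.le hc
    (show (0 : ℝ) ∈ Ioo ((fun k => F k - G k) h1) ((fun k => F k - G k) h2) from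
      ⟨sub_neg.2 hl, sub_pos.2 hr⟩)
  have hFG : F h = G h := sub_eq_zero.1 h0
  rcases hF.loc h ⟨ha.trans hh.1.le, hh.2.le.trans hb⟩ with
    ⟨w, _, _, k3, k4⟩ | ⟨p, q, k1, _, _, k4, k5, k6⟩
  · refine ⟨w, k3 ▸ hh.1, k3 ▸ hh.2, by rw [k3, k4], by rw [k3, ← hFG, k4]⟩
  rcases hG.loc h ⟨ha'.trans hh.1.le, hh.2.le.trans hb'⟩ with
    ⟨w, _, _, l3, l4⟩ | ⟨p', q', l1, _, _, l4, l5, l6⟩
  · refine ⟨w, l3 ▸ hh.1, l3 ▸ hh.2, by rw [l3, hFG, l4], by rw [l3, l4]⟩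
  have heq : (p, q) = (p', q') := by
    by_contra hne
    refine D.edge p q p' q' h k1 l1 hne k4 k5 l4.le l5.le ?_
    rw [← k6 h ⟨k4.le, k5.le⟩, ← l6 h ⟨l4.le, l5.le⟩, hFG]
  obtain ⟨rfl, rfl⟩ := Prod.mk.inj heq
  have hp : h1 < D.y p := by
    by_contra hcon
    have h3 : h1 ∈ Icc (D.y p) (D.y q) := ⟨not_lt.1 hcon, (hh.1.trans k5).le⟩
    rw [k6 h1 h3, l6 h1 h3] at hl
    exact lt_irrefl _ hl
  have hpm : D.y p ∈ Icc (D.y p) (D.y q) := ⟨le_rfl, (k4.trans k5).le⟩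
  exact ⟨p, hp, k4.trans hh.2, by rw [k6 _ hpm, D.X0 p q k1], by rw [l6 _ hpm, D.X0 p q k1]⟩

end Pool.Agent.W_a4f561_h73
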