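import Pool.Agent.W_a4f561_h73.A4Ord
import Pool.Agent.W_a4f561_h73.A4Two

/-!
MP_a4f561_co: edges and walls, the colouring of the tails.
-/

set_option autoImplicit false

namespace Pool.Agent.W_a4f561_h73

open Set Relation

variable {V : Type} {A : V → V → Prop}

/-- Wall through an edge. -/
theorem exists_wall_edge {D : Drw V A} {s t : V} (hst : ST A s t) {p q : V} (h : A p q) :
    ∃ W, Wl D s t p W ∧ Wl D s t q W ∧
      ∀ w, W (D.y w) = D.x w → ReflTransGen A w p ∨ ReflTransGen A q w := by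
  obtain ⟨W, h1, h2, h3⟩ := exists_wall_path (D := D) hst (Pth.edge D h)
  refine ⟨W, h1, h2, fun w hw => ?_⟩
  rcases le_or_gt (D.y w) (D.y p) with k1 | k1
  · exact Or.inl (h1.le_of_le hst hw k1)
  rcases le_or_gt (D.y q) (D.y w) with k2 | k2
  · exact Or.inr (h2.ge_of_ge hst hw k2)
  rw [h3 _ ⟨k1.le, k2.le⟩] at hw
  exact absurd hw (D.vert p q w h k1 k2)

/-- An edge does not cross the wall through another edge. -/
theorem iface {D : Drw V A} {s t : V} (hst : ST A s t) {a b c e : V} (hab : A a b) (hce : A c e)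
    (hac : Inc A a c) (hbe : Inc A b e) (h1 : Lft D s t a c) (h2 : Lft D s t e b) : False := by
  obtain ⟨W, w1, w2, _⟩ := exists_wall_edge (D := D) hst hce
  have k1 : D.x a < W (D.y a) := (lft_iff hst hac w1).1 h1
  have k2 : W (D.y b) < D.x b := (lft_iff' hst hbe.symm w2).1 h2
  have hF := Pth.edge D hab
  rw [← D.X0 a b hab] at k1
  rw [← D.X1 a b hab] at k2
  obtain ⟨w, u1, u2, u3, _⟩ := cross hF (w1.1.glue w1.2) (D.up a b hab) le_rfl le_rfl
    (D.y_le (hst a).1) (D.y_le (hst b).2) k1 k2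
  exact D.vert a b w hab u1 u2 u3

/-- The key lemma. -/
theorem key {D : Drw V A} {s t : V} (hst : ST A s t) {p q b c : V} (hpq : A p q)
    (hpc : Inc A p c) (h1 : Lft D s t p c) (hcb : ReflTransGen A c b) (hbq : Inc A b q)
    (h2 : Lft D s t b q) : False := by
  obtain ⟨W, w1, w2, w3⟩ := exists_wall_edge (D := D) hst hpq
  have k1 : W (D.y c) < D.x c := (lft_iff' hst hpc w1).1 h1
  have k2 : D.x b < W (D.y b) := (lft_iff hst hbq w2).1 h2
  have hlt : D.y c < D.y b := by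
    refine D.y_lt hcb ?_
    rintro rfl
    exact lt_asymm k1 k2
  obtain ⟨F, hF⟩ := Pth.exists D hcb
  rw [← hF.h0] at k1
  rw [← hF.h1] at k2
  obtain ⟨w, u1, u2, u3, u4⟩ := cross (w1.1.glue w1.2) hF hlt (D.y_le (hst c).1)
    (D.y_le (hst b).2) le_rfl le_rfl k1 k2
  have hw := hF.on u1.le u2.le u4
  rcases w3 w u3 with h | h
  · exact hpc.2 (hw.1.trans h)
  · exact hbq.2 (h.trans hw.2)

/-- The tail of the right edge is below the head of the left edge. -/
theorem below {D : Drw V A} {s t : V} (hst : ST A s t) {a b c : V} (hab : ReflTransGen A a b)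
    (hac : Inc A a c) (h1 : Lft D s t a c) (h2 : Lo D s t c b) : ReflTransGen A c b := by
  rcases h2 with ⟨h, _⟩ | ⟨h3, h4⟩
  · exact h
  · obtain ⟨W, w1, w2⟩ := exists_wall_two (D := D) hst hab
    exact absurd ((lft_iff' hst hac w1).1 h1) (lt_asymm ((lft_iff hst h3 w2).1 h4))

/-- Two vertices of the same level are incomparable. -/
theorem inc_of_level {ρ : V → ℤ} (hρ : ∀ u v, A u v → ρ u < ρ v) {a b : V} (h : ρ a = ρ b)
    (hab : a ≠ b) : Inc A a b := by
  have key : ∀ u v, ReflTransGen A u v → u ≠ v → ρ u < ρ v := by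
    have h0 : ∀ u v, ReflTransGen A u v → ρ u ≤ ρ v := by
      intro u v huv
      induction huv with
      | refl => exact le_rfl
      | tail _ h2 ih => exact ih.trans (hρ _ _ h2).le
    intro u v huv hne
    rcases ReflTransGen.cases_head huv with h1 | ⟨w, h1, h2⟩
    · exact absurd h1 hne
    · exact (hρ _ _ h1).trans_le (h0 _ _ h2)
  exact ⟨fun h1 => (key _ _ h1 hab).ne h, fun h1 => (key _ _ h1 hab.symm).ne h.symm⟩

theorem lo_level {D : Drw V A} {s t : V} (hst : ST A s t) {ρ : V → ℤ}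
    (hρ : ∀ u v, A u v → ρ u < ρ v) {a b : V} (h : ρ a = ρ b) (hl : Lo D s t a b) :
    Inc A a b ∧ Lft D s t a b := by
  have hab : a ≠ b := fun h1 => lo_irrefl hst a (by
    rw [← h1] at hl
    exact hl)
  have hi := inc_of_level hρ h hab
  rcases hl with ⟨h1, _⟩ | h1
  · exact absurd h1 hi.1
  · exact h1

theorem level_cases {D : Drw V A} {s t : V} (hst : ST A s t) {ρ : V → ℤ}
    (hρ : ∀ u v, A u v → ρ u < ρ v) {a b : V} (h : ρ a = ρ b) (hab : a ≠ b) :
    (Inc A a b ∧ Lft D s t a b) ∨ (Inc A b a ∧ Lft D s t b a) := by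
  rcases lo_total (D := D) hst hab with h1 | h1
  · exact Or.inl (lo_level hst hρ h h1)
  · exact Or.inr (lo_level hst hρ h.symm h1)

theorem nb_unique {D : Drw V A} {s t : V} (hst : ST A s t) {ρ : V → ℤ}
    (hρ : ∀ u v, A u v → ρ u < ρ v) {l : ℤ} {a c c' : V} (h : Nb A ρ (Lo D s t) l a c)
    (h' : Nb A ρ (Lo D s t) l a c') : c = c' := by
  obtain ⟨h1, h2, b, e, h3, h4, h5, h6, h7, h8⟩ := h
  obtain ⟨k1, k2, b', e', k3, k4, k5, k6, k7, k8⟩ := h'
  obtain ⟨i1, l1⟩ := lo_level hst hρ h1 h2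
  obtain ⟨i2, l2⟩ := lo_level hst hρ k1 k2
  obtain ⟨i3, l3⟩ := lo_level hst hρ (h5.trans h6.symm) h8
  obtain ⟨i4, l4⟩ := lo_level hst hρ (k5.trans k6.symm) k8
  have r1 : ReflTransGen A c b := below hst (ReflTransGen.single h3) i1 l1 h7
  have r2 : ReflTransGen A c' b' := below hst (ReflTransGen.single k3) i2 l2 k7
  have hb : b = b' := by
    by_contra hne
    rcases level_cases (D := D) hst hρ (h5.trans k5.symm) hne with ⟨i5, l5⟩ | ⟨i5, l5⟩
    · exact key hst k3 i1 l1 r1 i5 l5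
    · exact key hst h3 i2 l2 r2 i5 l5
  subst hb
  by_contra hne
  rcases level_cases (D := D) hst hρ (h1.symm.trans k1) hne with ⟨i5, l5⟩ | ⟨i5, l5⟩
  · exact key hst h4 i5 l5 r2 i3 l3
  · exact key hst k4 i5 l5 r1 i4 l4

theorem lo_ord [Finite V] {D : Drw V A} {s t : V} (hst : ST A s t) {ρ : V → ℤ}
    (hρ : ∀ u v, A u v → ρ u < ρ v) : Ord A ρ (Lo D s t) where
  irr := lo_irrefl hst
  tr := fun _ _ _ => lo_trans hst
  tot := fun _ _ => lo_total hst
  edge := fun a b h => Or.inl ⟨ReflTransGen.single h, fun h1 => (hρ a b h).ne (by rw [h1])⟩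
  col := exists_sep (lo_irrefl hst) (fun _ _ _ => lo_trans hst)
    (fun _ _ _ _ h h' => nb_unique hst hρ h h')

/-- Planar st-graphs. -/
theorem lo_two [Finite V] {D : Drw V A} {s t : V} (hst : ST A s t) {ρ : V → ℤ}
    (hρ : ∀ u v, A u v → ρ u < ρ v) : Two A ρ (Lo D s t) (Lo D.mir s t) where
  o := lo_ord hst hρ
  o' := lo_ord hst hρ
  ifc := by
    intro a b c e hab hce e1 e2 l1 l3
    obtain ⟨i1, k1⟩ := lo_level hst hρ e1 l1
    obtain ⟨i2, k2⟩ := lo_level (D := D.mir) hst hρ e2 l3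
    exact iface hst hab hce i1 i2 k1 ((lft_mir hst i2).1 k2)
  ifc' := by
    intro a b c e hab hce e1 e2 l1 l3
    obtain ⟨i1, k1⟩ := lo_level (D := D.mir) hst hρ e1 l1
    obtain ⟨i2, k2⟩ := lo_level hst hρ e2 l3
    exact iface (D := D.mir) hst hab hce i1 i2 k1 ((lft_mir hst i2.symm).2 k2)

end Pool.Agent.W_a4f561_h73
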