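import Pool.Agent.W_a4f561_h73.A4Drw
import Pool.Agent.W_a4f561_h73.A4Two

/-!
MP_a4f561_co: drawings with the vertices on horizontal lines (levels), any number of sources and sinks.

The leftmost curve upwards from `x` on level `m` goes to level `m + 1` along the rightmost edge which is
left of `x` (or through `x` in its interior).  It is a monotone map `Lam m`; `It k i` is the composition
of `i` steps from level `k`.
-/

set_option autoImplicit false

namespace Pool.Agent.W_a4f561_h73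

open Set

variable {V : Type} {A : V → V → Prop}

/-- Vertex `v` lies on the horizontal line at height `η (ρ v)`. -/
structure Lev (D : Drw V A) (ρ : V → ℤ) (η : ℤ → ℝ) : Prop where
  mono : StrictMono η
  lev : ∀ v, D.y v = η (ρ v)

variable {D : Drw V A} {ρ : V → ℤ} {η : ℤ → ℝ}

theorem Lev.mir (H : Lev D ρ η) : Lev D.mir ρ η := ⟨H.mono, H.lev⟩

/-- Edge `u v` passes from level `m` to level `m + 1`. -/
def Sp (A : V → V → Prop) (ρ : V → ℤ) (m : ℤ) (u v : V) : Prop := A u v ∧ ρ u ≤ m ∧ m + 1 ≤ ρ v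

theorem Lev.noncross (H : Lev D ρ η) {m : ℤ} {u v u' v' : V} (h : Sp A ρ m u v)
    (h' : Sp A ρ m u' v') (hx : D.X u v (η m) < D.X u' v' (η m)) :
    D.X u v (η (m + 1)) ≤ D.X u' v' (η (m + 1)) := by
  by_contra hcon
  have h2 : D.X u' v' (η (m + 1)) < D.X u v (η (m + 1)) := not_le.1 hcon
  have hm : η m < η (m + 1) := H.mono (lt_add_one m)
  have a1 : D.y u ≤ η m := by
    rw [H.lev]
    exact H.mono.monotone h.2.1
  have a2 : η (m + 1) ≤ D.y v := by
    rw [H.lev]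
    exact H.mono.monotone h.2.2
  have b1 : D.y u' ≤ η m := by
    rw [H.lev]
    exact H.mono.monotone h'.2.1
  have b2 : η (m + 1) ≤ D.y v' := by
    rw [H.lev]
    exact H.mono.monotone h'.2.2
  have hc : ContinuousOn (fun k => D.X u v k - D.X u' v' k) (Icc (η m) (η (m + 1))) :=
    ((D.cont u v h.1).mono (Icc_subset_Icc a1 a2)).sub
      ((D.cont u' v' h'.1).mono (Icc_subset_Icc b1 b2))
  obtain ⟨k, hk, h0⟩ := intermediate_value_Ioo hm.le hc
    (show (0 : ℝ) ∈ Ioo ((fun k => D.X u v k - D.X u' v' k) (η m))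
      ((fun k => D.X u v k - D.X u' v' k) (η (m + 1))) from ⟨sub_neg.2 hx, sub_pos.2 h2⟩)
  have hne : (u, v) ≠ (u', v') := by
    intro he
    obtain ⟨rfl, rfl⟩ := Prod.mk.inj he
    exact lt_irrefl _ hx
  exact D.edge u v u' v' k h.1 h'.1 hne (a1.trans_lt hk.1) (hk.2.trans_le a2) (b1.trans hk.1.le)
    (hk.2.le.trans b2) (sub_eq_zero.1 h0)

/-- The points of level `m + 1` reached from the left of `x`. -/
def Tg (D : Drw V A) (ρ : V → ℤ) (η : ℤ → ℝ) (m : ℤ) (x : EReal) : Set EReal :=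
  {z | ∃ u v, Sp A ρ m u v ∧ z = (D.X u v (η (m + 1)) : EReal) ∧
    ((D.X u v (η m) : EReal) < x ∨ ((D.X u v (η m) : EReal) = x ∧ ρ u < m))}

noncomputable def Lam (D : Drw V A) (ρ : V → ℤ) (η : ℤ → ℝ) (m : ℤ) (x : EReal) : EReal :=
  sSup (Tg D ρ η m x)

theorem lam_mono {m : ℤ} {x x' : EReal} (h : x ≤ x') : Lam D ρ η m x ≤ Lam D ρ η m x' := by
  rcases h.eq_or_lt with h | h
  · rw [h]
  · refine sSup_le_sSup ?_
    rintro z ⟨u, v, h1, h2, h3⟩
    refine ⟨u, v, h1, h2, Or.inl ?_⟩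
    rcases h3 with h3 | ⟨h3, _⟩
    · exact h3.trans h
    · rw [h3]
      exact h

theorem Lev.lam_edge (H : Lev D ρ η) {m : ℤ} {u v : V} (h : Sp A ρ m u v) :
    Lam D ρ η m (D.X u v (η m)) ≤ (D.X u v (η (m + 1)) : EReal) := by
  refine sSup_le ?_
  rintro z ⟨u', v', h1, rfl, h3 | ⟨h3, h4⟩⟩
  · exact EReal.coe_le_coe_iff.2 (H.noncross h1 h (EReal.coe_lt_coe_iff.1 h3))
  · have h5 : D.X u' v' (η m) = D.X u v (η m) := EReal.coe_eq_coe_iff.1 h3
    by_cases hne : (u', v') = (u, v)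
    · obtain ⟨rfl, rfl⟩ := Prod.mk.inj hne
      exact le_rfl
    · refine absurd h5 (D.edge u' v' u v (η m) h1.1 h.1 hne ?_ ?_ ?_ ?_)
      · rw [H.lev]
        exact H.mono h4
      · rw [H.lev]
        exact H.mono (by have := h1.2.2; omega)
      · rw [H.lev]
        exact H.mono.monotone h.2.1
      · rw [H.lev]
        exact H.mono.monotone (by have := h.2.2; omega)

/-- `i` steps from level `k`. -/
noncomputable def It (D : Drw V A) (ρ : V → ℤ) (η : ℤ → ℝ) (k : ℤ) : ℕ → EReal → EReal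
  | 0, x => x
  | i + 1, x => Lam D ρ η (k + i) (It D ρ η k i x)

theorem it_mono {k : ℤ} (i : ℕ) {x x' : EReal} (h : x ≤ x') :
    It D ρ η k i x ≤ It D ρ η k i x' := by
  induction i with
  | zero => exact h
  | succ i ih => exact lam_mono ih

theorem it_add (k : ℤ) (i j : ℕ) (x : EReal) :
    It D ρ η k (i + j) x = It D ρ η (k + i) j (It D ρ η k i x) := by
  induction j with
  | zero => rfl
  | succ j ih =>
    change Lam D ρ η (k + ((i + j : ℕ) : ℤ)) (It D ρ η k (i + j) x) =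
      Lam D ρ η (k + i + j) (It D ρ η (k + i) j (It D ρ η k i x))
    rw [ih]
    congr 1
    push_cast
    ring

/-- The leftmost curve from `a` at the level of `b`. -/
noncomputable def Cv (D : Drw V A) (ρ : V → ℤ) (η : ℤ → ℝ) (a b : V) : EReal :=
  It D ρ η (ρ a) (ρ b - ρ a).toNat (D.x a)

theorem cv_same {a b : V} (h : ρ a = ρ b) : Cv D ρ η a b = (D.x a : EReal) := by
  unfold Cv
  rw [h, sub_self]
  rfl

theorem cv_add {a b c : V} (h1 : ρ a ≤ ρ b) (h2 : ρ b ≤ ρ c) :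
    Cv D ρ η a c = It D ρ η (ρ b) (ρ c - ρ b).toNat (Cv D ρ η a b) := by
  unfold Cv
  have h3 : (ρ c - ρ a).toNat = (ρ b - ρ a).toNat + (ρ c - ρ b).toNat := by omega
  have h4 : ρ a + ((ρ b - ρ a).toNat : ℤ) = ρ b := by omega
  rw [h3, it_add, h4]

/-- Left-first order: from the lower to the higher vertex if the higher vertex is not left of the
leftmost curve. -/
def Lv (D : Drw V A) (ρ : V → ℤ) (η : ℤ → ℝ) (a b : V) : Prop :=
  (ρ a ≤ ρ b ∧ Cv D ρ η a b ≤ (D.x b : EReal) ∧ a ≠ b) ∨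
    (ρ b < ρ a ∧ (D.x a : EReal) < Cv D ρ η b a)

theorem Lev.same (H : Lev D ρ η) {a b : V} (h : ρ a = ρ b) (hab : a ≠ b) : D.x a ≠ D.x b := by
  intro hx
  exact hab (D.inj a b hx (by rw [H.lev, H.lev, h]))

theorem lv_low {a b : V} (h : ρ a ≤ ρ b) :
    Lv D ρ η a b ↔ Cv D ρ η a b ≤ (D.x b : EReal) ∧ a ≠ b := by
  constructor
  · rintro (h1 | h1)
    · exact h1.2
    · exact absurd h1.1 (not_lt.2 h)
  · exact fun h1 => Or.inl ⟨h, h1⟩

theorem Lev.lv_high (H : Lev D ρ η) {a b : V} (h : ρ b ≤ ρ a) :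
    Lv D ρ η a b ↔ (D.x a : EReal) < Cv D ρ η b a := by
  constructor
  · rintro (h1 | h1)
    · have h2 : ρ a = ρ b := le_antisymm h1.1 h
      rw [cv_same h2] at h1
      rw [cv_same h2.symm]
      exact lt_of_le_of_ne h1.2.1 fun h3 => H.same h2 h1.2.2 (EReal.coe_eq_coe_iff.1 h3)
    · exact h1.2
  · intro h1
    rcases h.eq_or_lt with h2 | h2
    · refine Or.inl ⟨h2.ge, ?_, ?_⟩
      · rw [cv_same h2] at h1
        rw [cv_same h2.symm]
        exact h1.le
      · rintro rfl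
        rw [cv_same rfl] at h1
        exact lt_irrefl _ h1
    · exact Or.inr ⟨h2, h1⟩

theorem Lev.lv_same (H : Lev D ρ η) {a b : V} (h : ρ a = ρ b) : Lv D ρ η a b ↔ D.x a < D.x b := by
  rw [H.lv_high h.ge, cv_same h.symm, EReal.coe_lt_coe_iff]

theorem Lev.lv_irr (H : Lev D ρ η) (a : V) : ¬ Lv D ρ η a a := by
  rw [H.lv_same rfl]
  exact lt_irrefl _

theorem Lev.lv_tot (H : Lev D ρ η) {a b : V} (hab : a ≠ b) : Lv D ρ η a b ∨ Lv D ρ η b a := by
  rcases le_total (ρ a) (ρ b) with h | h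
  · rw [lv_low h, H.lv_high h]
    rcases le_or_gt (Cv D ρ η a b) (D.x b : EReal) with h1 | h1
    · exact Or.inl ⟨h1, hab⟩
    · exact Or.inr h1
  · rw [lv_low h, H.lv_high h]
    rcases le_or_gt (Cv D ρ η b a) (D.x a : EReal) with h1 | h1
    · exact Or.inr ⟨h1, hab.symm⟩
    · exact Or.inl h1

theorem Lev.lv_asymm (H : Lev D ρ η) {a b : V} (h1 : Lv D ρ η a b) : ¬ Lv D ρ η b a := by
  intro h2
  rcases le_total (ρ a) (ρ b) with h | h
  · exact absurd ((H.lv_high h).1 h2) (not_lt.2 ((lv_low h).1 h1).1)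
  · exact absurd ((H.lv_high h).1 h1) (not_lt.2 ((lv_low h).1 h2).1)

/-- No 3-cycles, `a` on the lowest level. -/
theorem Lev.lv_cyc (H : Lev D ρ η) {a b c : V} (h1 : Lv D ρ η a b) (h2 : Lv D ρ η b c)
    (h3 : Lv D ρ η c a) (hab : ρ a ≤ ρ b) (hac : ρ a ≤ ρ c) : False := by
  have k1 := ((lv_low hab).1 h1).1
  have k3 := (H.lv_high hac).1 h3
  rcases le_total (ρ b) (ρ c) with h | h
  · have k2 := ((lv_low h).1 h2).1
    have k4 : Cv D ρ η a c ≤ Cv D ρ η b c := by
      rw [cv_add hab h]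
      exact it_mono _ k1
    exact absurd (k3.trans_le (k4.trans k2)) (lt_irrefl _)
  · have k2 := (H.lv_high h).1 h2
    have k4 : Cv D ρ η c b ≤ Cv D ρ η a b := by
      rw [cv_add hac h]
      exact it_mono _ k3.le
    exact absurd (k2.trans_le (k4.trans k1)) (lt_irrefl _)

theorem Lev.lv_tr (H : Lev D ρ η) {a b c : V} (h1 : Lv D ρ η a b) (h2 : Lv D ρ η b c) :
    Lv D ρ η a c := by
  by_cases hac : a = c
  · subst hac
    exact absurd h2 (H.lv_asymm h1)
  rcases H.lv_tot hac with h3 | h3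
  · exact h3
  exfalso
  rcases le_total (ρ a) (ρ b) with hab | hab
  · rcases le_total (ρ a) (ρ c) with hac | hac
    · exact H.lv_cyc h1 h2 h3 hab hac
    · exact H.lv_cyc h3 h1 h2 hac (hac.trans hab)
  · rcases le_total (ρ b) (ρ c) with hbc | hbc
    · exact H.lv_cyc h2 h3 h1 hbc hab
    · exact H.lv_cyc h3 h1 h2 (hbc.trans hab) hbc

/-- The leftmost curve from the tail of an edge is left of the edge. -/
theorem Lev.cv_edge (H : Lev D ρ η) (hρ : ∀ u v, A u v → ρ u < ρ v) {u v : V} (h : A u v) :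
    Cv D ρ η u v ≤ (D.x v : EReal) := by
  have key : ∀ i : ℕ, ρ u + i ≤ ρ v →
      It D ρ η (ρ u) i (D.x u) ≤ (D.X u v (η (ρ u + i)) : EReal) := by
    intro i
    induction i with
    | zero =>
      intro _
      change (D.x u : EReal) ≤ (D.X u v (η (ρ u + (0 : ℕ))) : EReal)
      rw [Nat.cast_zero, add_zero, ← H.lev, D.X0 u v h]
    | succ i ih =>
      intro hi
      have hi' : ρ u + i + 1 ≤ ρ v := by
        push_cast at hi
        omega
      have h1 := lam_mono (D := D) (ρ := ρ) (η := η) (m := ρ u + i) (ih (by omega))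
      have h2 := H.lam_edge (m := ρ u + i) (u := u) (v := v) ⟨h, by omega, hi'⟩
      have h3 : ρ u + ((i + 1 : ℕ) : ℤ) = ρ u + i + 1 := by
        push_cast
        ring
      rw [h3]
      exact h1.trans h2
  have h1 := key (ρ v - ρ u).toNat (by have := hρ u v h; omega)
  have h2 : ρ u + ((ρ v - ρ u).toNat : ℤ) = ρ v := by
    have := hρ u v h
    omega
  rw [h2, ← H.lev, D.X1 u v h] at h1
  exact h1

/-- The leftmost curve from a vertex right of the tail of an edge is right of the edge. -/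
theorem Lev.cv_right (H : Lev D ρ η) (hρ : ∀ u v, A u v → ρ u < ρ v) {p q c : V} (h : A p q)
    (hpc : ρ p = ρ c) (hx : D.x p < D.x c) : (D.x q : EReal) ≤ Cv D ρ η c q := by
  have key : ∀ i : ℕ, ρ p + i + 1 ≤ ρ q →
      (D.X p q (η (ρ p + i + 1)) : EReal) ≤ It D ρ η (ρ c) (i + 1) (D.x c) := by
    intro i
    induction i with
    | zero =>
      intro hi
      change _ ≤ Lam D ρ η (ρ c + (0 : ℕ)) (D.x c)
      rw [Nat.cast_zero, add_zero] at hi
      rw [Nat.cast_zero, add_zero, add_zero, ← hpc]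
      refine le_sSup ⟨p, q, ⟨h, le_rfl, hi⟩, rfl, Or.inl ?_⟩
      rw [← H.lev, D.X0 p q h]
      exact EReal.coe_lt_coe_iff.2 hx
    | succ i ih =>
      intro hi
      have hi' : ρ p + i + 1 + 1 ≤ ρ q := by
        push_cast at hi
        omega
      have h1 := ih (by omega)
      have h3 : ρ p + ((i + 1 : ℕ) : ℤ) = ρ p + i + 1 := by
        push_cast
        ring
      have h4 : ρ c + ((i + 1 : ℕ) : ℤ) = ρ p + i + 1 := by
        rw [← hpc]
        push_cast
        ring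
      change _ ≤ Lam D ρ η (ρ c + ((i + 1 : ℕ) : ℤ)) (It D ρ η (ρ c) (i + 1) (D.x c))
      rw [h3, h4]
      refine le_sSup ⟨p, q, ⟨h, by omega, hi'⟩, rfl, ?_⟩
      rcases h1.eq_or_lt with h5 | h5
      · exact Or.inr ⟨h5, by omega⟩
      · exact Or.inl h5
  have hlt := hρ p q h
  obtain ⟨i, hi⟩ : ∃ i : ℕ, (ρ q - ρ c).toNat = i + 1 := ⟨(ρ q - ρ c).toNat - 1, by omega⟩
  have h1 := key i (by omega)
  have h2 : ρ p + i + 1 = ρ q := by omega
  rw [h2, ← H.lev, D.X1 p q h] at h1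
  unfold Cv
  rw [hi]
  exact h1

theorem Lev.nb_unique (H : Lev D ρ η) (hρ : ∀ u v, A u v → ρ u < ρ v) {l : ℤ} {a c c' : V}
    (h : Nb A ρ (Lv D ρ η) l a c) (h' : Nb A ρ (Lv D ρ η) l a c') : c = c' := by
  obtain ⟨h1, h2, b, e, h3, h4, h5, h6, h7, h8⟩ := h
  obtain ⟨k1, k2, b', e', k3, k4, k5, k6, k7, k8⟩ := h'
  rw [H.lv_same h1] at h2
  rw [H.lv_same k1] at k2
  rw [H.lv_same (h5.trans h6.symm)] at h8
  rw [H.lv_same (k5.trans k6.symm)] at k8
  have r1 := ((lv_low (by have := hρ a b h3; omega)).1 h7).1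
  have r2 := ((lv_low (by have := hρ a b' k3; omega)).1 k7).1
  have hcv : ∀ {u v w : V}, ρ v = ρ w → Cv D ρ η u v = Cv D ρ η u w := by
    intro u v w hvw
    unfold Cv
    rw [hvw]
  have hb : b = b' := by
    by_contra hne
    rcases lt_or_gt_of_ne (H.same (h5.trans k5.symm) hne) with h9 | h9
    · have h10 := H.cv_right hρ k3 h1 h2
      rw [← hcv (h5.trans k5.symm)] at h10
      exact absurd (EReal.coe_le_coe_iff.1 (h10.trans r1)) (not_le.2 h9)
    · have h10 := H.cv_right hρ h3 k1 k2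
      rw [hcv (h5.trans k5.symm)] at h10
      exact absurd (EReal.coe_le_coe_iff.1 (h10.trans r2)) (not_le.2 h9)
  subst hb
  by_contra hne
  rcases lt_or_gt_of_ne (H.same (h1.symm.trans k1) hne) with h9 | h9
  · have h10 := H.cv_right hρ h4 (h1.symm.trans k1) h9
    rw [← hcv (h5.trans h6.symm)] at h10
    exact absurd (EReal.coe_le_coe_iff.1 (h10.trans r2)) (not_le.2 h8)
  · have h10 := H.cv_right hρ k4 (k1.symm.trans h1) h9
    rw [← hcv (k5.trans k6.symm)] at h10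
    exact absurd (EReal.coe_le_coe_iff.1 (h10.trans r1)) (not_le.2 k8)

theorem Lev.ord [Finite V] (H : Lev D ρ η) (hρ : ∀ u v, A u v → ρ u < ρ v) :
    Ord A ρ (Lv D ρ η) where
  irr := H.lv_irr
  tr := fun _ _ _ => H.lv_tr
  tot := fun _ _ => H.lv_tot
  edge := fun a b h => (lv_low (hρ a b h).le).2 ⟨H.cv_edge hρ h, fun h1 => (hρ a b h).ne (by rw [h1])⟩
  col := exists_sep H.lv_irr (fun _ _ _ => H.lv_tr) (fun _ _ _ _ h h' => H.nb_unique hρ h h')

theorem Lev.ifc (H : Lev D ρ η) (hρ : ∀ u v, A u v → ρ u < ρ v) {a b c e : V} (hab : A a b)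
    (hce : A c e) (h1 : ρ a = ρ c) (h2 : ρ b = ρ e) (h3 : D.x a < D.x c) :
    D.x b ≤ D.x e := by
  have h4 := H.cv_right hρ hab h1 h3
  have h5 : Cv D ρ η c b = Cv D ρ η c e := by
    unfold Cv
    rw [h2]
  rw [h5] at h4
  exact EReal.coe_le_coe_iff.1 (h4.trans (H.cv_edge hρ hce))

/-- Level drawings. -/
theorem Lev.two [Finite V] (H : Lev D ρ η) (hρ : ∀ u v, A u v → ρ u < ρ v) :
    Two A ρ (Lv D ρ η) (Lv D.mir ρ η) where
  o := H.ord hρ
  o' := H.mir.ord hρ
  ifc := by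
    intro a b c e hab hce e1 e2 l1 l3
    rw [H.lv_same e1] at l1
    rw [H.mir.lv_same e2] at l3
    exact absurd (H.ifc hρ hab hce e1 e2 l1) (not_le.2 (neg_lt_neg_iff.1 l3))
  ifc' := by
    intro a b c e hab hce e1 e2 l1 l3
    rw [H.mir.lv_same e1] at l1
    rw [H.lv_same e2] at l3
    exact absurd (neg_le_neg_iff.1 (H.mir.ifc hρ hab hce e1 e2 l1)) (not_le.2 l3)

end Pool.Agent.W_a4f561_h73
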