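import Pool.Agent.W_a4f561_h73.A4Drw

/-!
MP_a4f561_co: walls (paths from the source to the sink), the relation left, and the left-first order.
-/

set_option autoImplicit false

namespace Pool.Agent.W_a4f561_h73

open Set Relation

variable {V : Type} {A : V → V → Prop}

/-- `s` reaches every vertex, and every vertex reaches `t`. -/
def ST (A : V → V → Prop) (s t : V) : Prop := ∀ v, ReflTransGen A s v ∧ ReflTransGen A v t

/-- `W` is a wall (path from `s` to `t`) through `v`. -/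
def Wl (D : Drw V A) (s t v : V) (W : ℝ → ℝ) : Prop := Pth D s v W ∧ Pth D v t W

/-- Incomparable vertices. -/
def Inc (A : V → V → Prop) (a b : V) : Prop := ¬ ReflTransGen A a b ∧ ¬ ReflTransGen A b a

theorem Inc.symm {a b : V} (h : Inc A a b) : Inc A b a := ⟨h.2, h.1⟩

theorem Wl.mir {D : Drw V A} {s t v : V} {W : ℝ → ℝ} (h : Wl D s t v W) :
    Wl D.mir s t v (fun k => - W k) := ⟨h.1.mir, h.2.mir⟩

/-- A wall through the two ends of a path. -/
theorem exists_wall_path {D : Drw V A} {s t : V} (hst : ST A s t) {a b : V} {F : ℝ → ℝ}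
    (hF : Pth D a b F) :
    ∃ W, Wl D s t a W ∧ Wl D s t b W ∧ ∀ k ∈ Icc (D.y a) (D.y b), W k = F k := by
  obtain ⟨F1, h1⟩ := Pth.exists D (hst a).1
  obtain ⟨F2, h2⟩ := Pth.exists D (hst b).2
  obtain ⟨G, g1, g2, g3, g4⟩ := h1.join hF
  obtain ⟨W, w1, w2, w3, w4⟩ := (g3.glue g4).join h2
  have hab := D.y_le hF.re
  have h3 : Pth D s a W := g3.congr fun k hk => w1 k (hk.2.trans hab)
  have h4 : Pth D a b W := g4.congr fun k hk => w1 k hk.2
  exact ⟨W, ⟨h3, h4.glue w4⟩, ⟨w3, w4⟩, fun k hk => by rw [w1 k hk.2, g2 k hk.1]⟩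

theorem exists_wall_two {D : Drw V A} {s t : V} (hst : ST A s t) {a b : V}
    (h : ReflTransGen A a b) : ∃ W, Wl D s t a W ∧ Wl D s t b W := by
  obtain ⟨F, hF⟩ := Pth.exists D h
  obtain ⟨W, h1, h2, _⟩ := exists_wall_path hst hF
  exact ⟨W, h1, h2⟩

theorem exists_wall {D : Drw V A} {s t : V} (hst : ST A s t) (v : V) : ∃ W, Wl D s t v W := by
  obtain ⟨W, h1, _⟩ := exists_wall_two (D := D) hst (ReflTransGen.refl : ReflTransGen A v v)
  exact ⟨W, h1⟩

/-- A vertex on a wall through `b` is comparable with `b`. -/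
theorem Wl.on {D : Drw V A} {s t : V} (hst : ST A s t) {b : V} {W : ℝ → ℝ} (hW : Wl D s t b W)
    {w : V} (h : W (D.y w) = D.x w) : ReflTransGen A w b ∨ ReflTransGen A b w := by
  rcases le_total (D.y w) (D.y b) with h1 | h1
  · exact Or.inl (hW.1.on (D.y_le (hst w).1) h1 h).2
  · exact Or.inr (hW.2.on h1 (D.y_le (hst w).2) h).1

theorem Wl.le_of_le {D : Drw V A} {s t : V} (hst : ST A s t) {b : V} {W : ℝ → ℝ}
    (hW : Wl D s t b W) {w : V} (h : W (D.y w) = D.x w) (h1 : D.y w ≤ D.y b) :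
    ReflTransGen A w b := (hW.1.on (D.y_le (hst w).1) h1 h).2

theorem Wl.ge_of_ge {D : Drw V A} {s t : V} (hst : ST A s t) {b : V} {W : ℝ → ℝ}
    (hW : Wl D s t b W) {w : V} (h : W (D.y w) = D.x w) (h1 : D.y b ≤ D.y w) :
    ReflTransGen A b w := (hW.2.on h1 (D.y_le (hst w).2) h).1

theorem Wl.off {D : Drw V A} {s t : V} (hst : ST A s t) {a b : V} (hi : Inc A a b) {W : ℝ → ℝ}
    (hW : Wl D s t b W) : W (D.y a) ≠ D.x a := fun h =>
  (hW.on hst h).elim hi.1 hi.2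

theorem Wl.eq {D : Drw V A} {s t : V} {b : V} {W : ℝ → ℝ} (hW : Wl D s t b W) :
    W (D.y b) = D.x b := hW.1.h1

/-- Two walls with a crossing: a common vertex strictly in between. -/
theorem Wl.cross {D : Drw V A} {s t : V} {a b : V} {W W' : ℝ → ℝ} (hst : ST A s t)
    (hW : Wl D s t a W) (hW' : Wl D s t b W') {u v : V} (huv : D.y u < D.y v)
    (h1 : W (D.y u) < W' (D.y u)) (h2 : W' (D.y v) < W (D.y v)) :
    ∃ w, D.y u < D.y w ∧ D.y w < D.y v ∧ W (D.y w) = D.x w ∧ W' (D.y w) = D.x w :=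
  Pool.Agent.W_a4f561_h73.cross (hW.1.glue hW.2) (hW'.1.glue hW'.2) huv (D.y_le (hst u).1) (D.y_le (hst v).2)
    (D.y_le (hst u).1) (D.y_le (hst v).2) h1 h2

/-- Step for `anti`. -/
theorem anti_aux {D : Drw V A} {s t : V} (hst : ST A s t) {a b : V} (hi : Inc A a b)
    {W W' : ℝ → ℝ} (hW : Wl D s t a W) (hW' : Wl D s t b W') (h : D.x a < W' (D.y a)) :
    W (D.y b) < D.x b := by
  by_contra hcon
  have h2 : D.x b < W (D.y b) :=
    lt_of_le_of_ne (not_lt.1 hcon) (fun h3 => hW.off hst hi.symm h3.symm)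
  rw [← hW.eq] at h
  rw [← hW'.eq] at h2
  rcases lt_trichotomy (D.y a) (D.y b) with h3 | h3 | h3
  · obtain ⟨w, w1, w2, w3, w4⟩ := hW.cross hst hW' h3 h h2
    exact hi.1 ((hW.ge_of_ge hst w3 w1.le).trans (hW'.le_of_le hst w4 w2.le))
  · rw [h3] at h
    exact lt_asymm h h2
  · obtain ⟨w, w1, w2, w3, w4⟩ := hW'.cross hst hW h3 h2 h
    exact hi.2 ((hW'.ge_of_ge hst w3 w1.le).trans (hW.le_of_le hst w4 w2.le))

/-- `a` is left of a wall through `b` iff `b` is right of a wall through `a`. -/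
theorem anti {D : Drw V A} {s t : V} (hst : ST A s t) {a b : V} (hi : Inc A a b)
    {W W' : ℝ → ℝ} (hW : Wl D s t a W) (hW' : Wl D s t b W') :
    D.x a < W' (D.y a) ↔ W (D.y b) < D.x b := by
  refine ⟨anti_aux hst hi hW hW', fun h => ?_⟩
  by_contra hcon
  have h2 : W' (D.y a) < D.x a := lt_of_le_of_ne (not_lt.1 hcon) (hW'.off hst hi)
  have h3 : D.mir.x a < (fun k => - W' k) (D.mir.y a) := neg_lt_neg h2
  have h4 := anti_aux (D := D.mir) hst hi hW.mir hW'.mir h3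
  have h5 : D.x b < W (D.y b) := neg_lt_neg_iff.1 h4
  exact lt_asymm h h5

/-- `a` is left of `b`. -/
def Lft (D : Drw V A) (s t a b : V) : Prop := ∃ W, Wl D s t b W ∧ D.x a < W (D.y a)

theorem lft_iff' {D : Drw V A} {s t : V} (hst : ST A s t) {a b : V} (hi : Inc A a b)
    {W : ℝ → ℝ} (hW : Wl D s t a W) : Lft D s t a b ↔ W (D.y b) < D.x b := by
  constructor
  · rintro ⟨W', h1, h2⟩
    exact (anti hst hi hW h1).1 h2
  · intro h
    obtain ⟨W', h1⟩ := exists_wall (D := D) hst b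
    exact ⟨W', h1, (anti hst hi hW h1).2 h⟩

theorem lft_iff {D : Drw V A} {s t : V} (hst : ST A s t) {a b : V} (hi : Inc A a b)
    {W : ℝ → ℝ} (hW : Wl D s t b W) : Lft D s t a b ↔ D.x a < W (D.y a) := by
  obtain ⟨W', h1⟩ := exists_wall (D := D) hst a
  rw [lft_iff' hst hi h1, anti hst hi h1 hW]

theorem lft_not {D : Drw V A} {s t : V} (hst : ST A s t) {a b : V} (hi : Inc A a b) :
    Lft D s t a b ↔ ¬ Lft D s t b a := by
  obtain ⟨W, h1⟩ := exists_wall (D := D) hst b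
  rw [lft_iff hst hi h1, lft_iff' hst hi.symm h1, not_lt]
  exact ⟨le_of_lt, fun h => lt_of_le_of_ne h (fun h3 => h1.off hst hi h3.symm)⟩

theorem lft_mir {D : Drw V A} {s t : V} (hst : ST A s t) {a b : V} (hi : Inc A a b) :
    Lft D.mir s t a b ↔ Lft D s t b a := by
  obtain ⟨W, h1⟩ := exists_wall (D := D) hst b
  rw [lft_iff (D := D.mir) hst hi h1.mir, lft_iff' hst hi.symm h1]
  exact neg_lt_neg_iff

/-- The left-first order. -/
def Lo (D : Drw V A) (s t a b : V) : Prop :=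
  (ReflTransGen A a b ∧ a ≠ b) ∨ (Inc A a b ∧ Lft D s t a b)

theorem no_two (D : Drw V A) {a b : V} (h1 : ReflTransGen A a b) (h2 : ReflTransGen A b a) :
    a = b := by
  by_contra hne
  exact lt_irrefl _ ((D.y_lt h1 hne).trans_le (D.y_le h2))

theorem lo_total {D : Drw V A} {s t : V} (hst : ST A s t) {a b : V} (hab : a ≠ b) :
    Lo D s t a b ∨ Lo D s t b a := by
  by_cases h1 : ReflTransGen A a b
  · exact Or.inl (Or.inl ⟨h1, hab⟩)
  by_cases h2 : ReflTransGen A b a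
  · exact Or.inr (Or.inl ⟨h2, hab.symm⟩)
  have hi : Inc A a b := ⟨h1, h2⟩
  by_cases h3 : Lft D s t b a
  · exact Or.inr (Or.inr ⟨hi.symm, h3⟩)
  · exact Or.inl (Or.inr ⟨hi, (lft_not hst hi).2 h3⟩)

theorem lo_asymm {D : Drw V A} {s t : V} (hst : ST A s t) {a b : V} (h : Lo D s t a b) :
    ¬ Lo D s t b a := by
  intro h'
  rcases h with ⟨h1, h2⟩ | ⟨h1, h2⟩
  · rcases h' with ⟨h3, _⟩ | ⟨h3, _⟩
    · exact h2 (no_two D h1 h3)
    · exact h3.2 h1
  · rcases h' with ⟨h3, _⟩ | ⟨_, h4⟩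
    · exact h1.2 h3
    · exact (lft_not hst h1).1 h2 h4

theorem lo_irrefl {D : Drw V A} {s t : V} (hst : ST A s t) (a : V) : ¬ Lo D s t a a :=
  fun h => lo_asymm hst h h

theorem cyc_rll {D : Drw V A} {s t : V} (hst : ST A s t) {a b c : V} (h1 : ReflTransGen A a b)
    (h2 : Inc A b c) (h3 : Lft D s t b c) (h4 : Inc A c a) (h5 : Lft D s t c a) : False := by
  obtain ⟨W, w1, w2⟩ := exists_wall_two (D := D) hst h1
  exact lt_asymm ((lft_iff' hst h2 w2).1 h3) ((lft_iff hst h4 w1).1 h5)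

/-- Two walls `Wc`, `Wb` on both sides of `a` which exchange sides below `b` and below `c`. -/
theorem cyc_aux {D : Drw V A} {s t : V} (hst : ST A s t) {a b c v : V} (hab : Inc A a b)
    (hac : Inc A a c) {Wb Wc : ℝ → ℝ} (hb : Wl D s t b Wb) (hc : Wl D s t c Wc)
    (h1 : Wc (D.y a) < D.x a) (h2 : D.x a < Wb (D.y a)) (h3 : Wb (D.y v) < Wc (D.y v))
    (hav : D.y a ≤ D.y v) (hvb : D.y v ≤ D.y b) (hvc : D.y v ≤ D.y c) : False := by
  have hlt : D.y a < D.y v := by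
    rcases hav.eq_or_lt with h | h
    · rw [← h] at h3
      exact absurd (h1.trans h2) (lt_asymm h3)
    · exact h
  obtain ⟨w, w1, w2, w3, w4⟩ := hc.cross hst hb hlt (h1.trans h2) h3
  have hwb : ReflTransGen A w b := hb.le_of_le hst w4 (w2.le.trans hvb)
  have hwc : ReflTransGen A w c := hc.le_of_le hst w3 (w2.le.trans hvc)
  obtain ⟨F, hF⟩ := exists_wall (D := D) hst a
  rw [← hF.eq] at h1 h2
  rcases lt_trichotomy (F (D.y w)) (D.x w) with h | h | h
  · rw [← w3] at h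
    obtain ⟨u, u1, u2, u3, u4⟩ := hc.cross hst hF w1 h1 h
    exact hac.1 ((hF.ge_of_ge hst u4 u1.le).trans
      (hc.le_of_le hst u3 (u2.le.trans (w2.le.trans hvc))))
  · exact hab.1 ((hF.ge_of_ge hst h w1.le).trans hwb)
  · rw [← w4] at h
    obtain ⟨u, u1, u2, u3, u4⟩ := hF.cross hst hb w1 h2 h
    exact hab.1 ((hF.ge_of_ge hst u3 u1.le).trans
      (hb.le_of_le hst u4 (u2.le.trans (w2.le.trans hvb))))

theorem cyc_lll {D : Drw V A} {s t : V} (hst : ST A s t) {a b c : V} (hab : Inc A a b)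
    (lab : Lft D s t a b) (hbc : Inc A b c) (lbc : Lft D s t b c) (hca : Inc A c a)
    (lca : Lft D s t c a) (h1 : D.y a ≤ D.y b) (h2 : D.y a ≤ D.y c) : False := by
  obtain ⟨Wb, hb⟩ := exists_wall (D := D) hst b
  obtain ⟨Wc, hc⟩ := exists_wall (D := D) hst c
  have k1 : Wc (D.y a) < D.x a := (lft_iff' hst hca hc).1 lca
  have k2 : D.x a < Wb (D.y a) := (lft_iff hst hab hb).1 lab
  rcases le_total (D.y b) (D.y c) with h | h
  · refine cyc_aux hst hab hca.symm hb hc k1 k2 (v := b) ?_ h1 le_rfl h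
    rw [hb.eq]
    exact (lft_iff hst hbc hc).1 lbc
  · refine cyc_aux hst hab hca.symm hb hc k1 k2 (v := c) ?_ h2 h le_rfl
    rw [hc.eq]
    exact (lft_iff' hst hbc hb).1 lbc

theorem cyc {D : Drw V A} {s t : V} (hst : ST A s t) {a b c : V} (h1 : Lo D s t a b)
    (h2 : Lo D s t b c) (h3 : Lo D s t c a) : False := by
  rcases h1 with ⟨p1, q1⟩ | ⟨p1, q1⟩
  · rcases h2 with ⟨p2, q2⟩ | ⟨p2, q2⟩
    · rcases h3 with ⟨p3, q3⟩ | ⟨p3, q3⟩
      · exact q3 (no_two D p3 (p1.trans p2))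
      · exact p3.2 (p1.trans p2)
    · rcases h3 with ⟨p3, q3⟩ | ⟨p3, q3⟩
      · exact p2.2 (p3.trans p1)
      · exact cyc_rll hst p1 p2 q2 p3 q3
  · rcases h2 with ⟨p2, q2⟩ | ⟨p2, q2⟩
    · rcases h3 with ⟨p3, q3⟩ | ⟨p3, q3⟩
      · exact p1.2 (p2.trans p3)
      · exact cyc_rll hst p2 p3 q3 p1 q1
    · rcases h3 with ⟨p3, q3⟩ | ⟨p3, q3⟩
      · exact cyc_rll hst p3 p1 q1 p2 q2
      · rcases le_total (D.y a) (D.y b) with hab | hab
        · rcases le_total (D.y a) (D.y c) with hac | hac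
          · exact cyc_lll hst p1 q1 p2 q2 p3 q3 hab hac
          · exact cyc_lll hst p3 q3 p1 q1 p2 q2 hac (hac.trans hab)
        · rcases le_total (D.y b) (D.y c) with hbc | hbc
          · exact cyc_lll hst p2 q2 p3 q3 p1 q1 hbc hab
          · exact cyc_lll hst p3 q3 p1 q1 p2 q2 (hbc.trans hab) hbc

theorem lo_trans {D : Drw V A} {s t : V} (hst : ST A s t) {a b c : V} (h1 : Lo D s t a b)
    (h2 : Lo D s t b c) : Lo D s t a c := by
  by_cases hac : a = c
  · subst hac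
    exact absurd h2 (lo_asymm hst h1)
  · rcases lo_total (D := D) hst hac with h | h
    · exact h
    · exact (cyc hst h1 h2 h).elim

end Pool.Agent.W_a4f561_h73
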