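import Pool.Agent.W_a4f561_h73.A4Key
import Pool.Agent.W_a4f561_h73.A4Cnv

/-!
MP_a4f561_co, StSpan: short edges of a planar st-graph need at most `2 * d ^ 2` pages.
-/

set_option autoImplicit false

namespace Pool.Agent.W_a4f561_h73.StSpanVar

/-- `G` is a digraph with an upward planar drawing as in the problem and with vertices `s`, `t` such
that every vertex lies on a directed walk from `s` to `t`; `ρ` is any integer layering, strictly
increasing along the edges.  For every `d ≥ 1` there is an order of the vertices in which all edges of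
`G` go forward, and an assignment of `2 * d ^ 2` pages such that no two edges on the same page, both of
span `ρ v - ρ u` at most `d`, cross. -/
theorem result (n d : ℕ) (hd : 0 < d) (G : Digraph (Fin n))
    (hG : ∃ f : Fin n → ℝ × ℝ, Function.Injective f ∧
      ∃ γ : Fin n → Fin n → ℝ → ℝ × ℝ,
        (∀ u v, G.Adj u v →
          ContinuousOn (γ u v) (Set.Icc (0:ℝ) 1) ∧
          γ u v 0 = f u ∧ γ u v 1 = f v ∧
          StrictMonoOn (fun t => (γ u v t).2) (Set.Icc (0:ℝ) 1) ∧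
          (∀ w, ∀ s ∈ Set.Ioo (0:ℝ) 1, γ u v s ≠ f w)) ∧
        (∀ u v u' v', G.Adj u v → G.Adj u' v' → (u, v) ≠ (u', v') →
          ∀ s ∈ Set.Ioo (0:ℝ) 1, ∀ t ∈ Set.Icc (0:ℝ) 1,
            γ u v s ≠ γ u' v' t))
    (s t : Fin n)
    (hst : ∀ v, Relation.ReflTransGen G.Adj s v ∧ Relation.ReflTransGen G.Adj v t)
    (ρ : Fin n → ℤ) (hρ : ∀ u v, G.Adj u v → ρ u < ρ v) :
    ∃ σ : Fin n ≃ Fin n, ∃ p : Fin n → Fin n → Fin (2 * d ^ 2),
      (∀ u v, G.Adj u v → σ u < σ v) ∧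
      (∀ a b c e, G.Adj a b → G.Adj c e → ρ b - ρ a ≤ d → ρ e - ρ c ≤ d → p a b = p c e →
        ¬ (σ a < σ c ∧ σ c < σ b ∧ σ b < σ e)) := by
  obtain ⟨f, hf, γ, h1, h2⟩ := hG
  obtain ⟨D, _⟩ := W_a4f561_h73.exists_drw_y f hf γ h1 h2
  obtain ⟨σ, p, k1, k2⟩ := W_a4f561_h73.assembly (W_a4f561_h73.lo_two (D := D) hst hρ) hρ hd
  exact ⟨σ, p, k1, fun a b c e hab hce s1 s2 => k2 a b c e hab hce (by linarith) (by linarith)⟩

end Pool.Agent.W_a4f561_h73.StSpanVar
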